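import Pool.Agent.R525.TW.Stm
import Pool.Agent.R525.TW.Bas
import Pool.Agent.R525.TW.One
import Pool.Agent.R525.TW.Steep
import Pool.Agent.R525.TW.Gap
import Pool.Agent.R525.TW.Wid
import Pool.Agent.R525.TW.Lim
import Pool.Agent.R525.TW.Eqn
import Pool.Agent.R525.TW.Tau
import Pool.Agent.R525.TW.Uni
import Pool.Agent.R525.TW.Pos
import Pool.Agent.R525.TW.Tail0u
import Pool.Agent.R525.TW.Tail0l
import Pool.Agent.R525.TW.Tail1

/-! # The counter system converges to a travelling wave, and the tails of the wave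

The functions `φ_k` converge uniformly on `[0,∞)` to a travelling wave, whose profile has a
double exponential tail at `-∞` and an exponential tail at `+∞`. (The lemma `tails` below shows
that every wave profile has such tails, and delay larger than `1`.) -/

set_option autoImplicit false

open MeasureTheory Set Filter Topology

namespace Pool.Agent.Results.MP_220de9_an.TravellingWaveAndTails

open Pool.Agent.R525.TW

/-- Every wave profile has delay `> 1`, a double exponential tail at `-∞` and an exponential tail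
at `+∞`. -/
theorem tails {τ : ℝ} {W : ℝ → ℝ} (hτ : 0 < τ) (hW : IsProfile τ W) :
    1 < τ ∧ DoubleExpTail (fun r => W (-r)) ∧ ExpTail (fun r => 1 - W r) := by
  refine ⟨(posP τ W hτ hW).1, ?_, tail1P posP τ W hτ hW⟩
  obtain ⟨C1, hC1, h1⟩ := tail0uP posP τ W hτ hW
  obtain ⟨C2, hC2, h2⟩ := tail0lP posP τ W hτ hW
  have hl : 0 < Real.log 2 := Real.log_pos (by norm_num)
  refine ⟨Real.log 2 / τ, 2 * Real.log 2 / τ, max C1 C2, by positivity, ?_,
    le_trans hC1 (le_max_left _ _), ?_⟩
  · exact div_le_div_of_nonneg_right (by linarith) hτ.le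
  · intro r hr
    refine ⟨le_trans ?_ (h2 r hr), le_trans (h1 r hr) ?_⟩
    · apply Real.exp_le_exp.2
      have : C2 * Real.exp (2 * Real.log 2 / τ * r) ≤
          max C1 C2 * Real.exp (2 * Real.log 2 / τ * r) :=
        mul_le_mul_of_nonneg_right (le_max_right _ _) (Real.exp_pos _).le
      linarith
    · apply Real.exp_le_exp.2
      have h3 : (max C1 C2)⁻¹ ≤ C1⁻¹ :=
        inv_anti₀ (by linarith) (le_max_left _ _)
      have : (max C1 C2)⁻¹ * Real.exp (Real.log 2 / τ * r) ≤
          C1⁻¹ * Real.exp (Real.log 2 / τ * r) :=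
        mul_le_mul_of_nonneg_right h3 (Real.exp_pos _).le
      linarith

theorem result :
    ∃ (τ : ℝ) (W : ℝ → ℝ) (m : ℕ → ℝ), 0 < τ ∧ IsProfile τ W ∧
      Tendsto (fun k => m (k + 1) - m k) atTop (𝓝 τ) ∧
      (∀ ε : ℝ, 0 < ε → ∃ K : ℕ, ∀ k, K ≤ k → ∀ t : ℝ, 0 ≤ t → |phi k t - W (t - m k)| ≤ ε) ∧
      DoubleExpTail (fun r => W (-r)) ∧ ExpTail (fun r => 1 - W r) := by
  have hB : BasP := basP
  have hS : SteepP := steepP hB (oneP hB)
  have hG : GapP := gapP hB hS
  have hL : LimP := limP hB hS hG (widP hB hG)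
  have hE : EqnP := eqnP hB
  obtain ⟨m, W, hmW⟩ := hL
  obtain ⟨τ, hτ, hlim⟩ := tauP hE m W hmW
  have heq : ∀ s, HasDerivAt W (W (s + τ) * (W (s + τ) - W s)) s :=
    hE m W hmW id τ tendsto_id hlim
  have hprof : IsProfile τ W := by
    refine ⟨?_, hmW.mono, hmW.bounds, hmW.bot, hmW.top, heq⟩
    rw [contDiff_one_iff_deriv]
    refine ⟨fun s => (heq s).differentiableAt, ?_⟩
    have : deriv W = fun s => W (s + τ) * (W (s + τ) - W s) := funext fun s => (heq s).deriv
    rw [this]
    have h1 : Continuous fun s => W (s + τ) := hmW.cont.comp (continuous_id.add continuous_const)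
    exact h1.mul (h1.sub hmW.cont)
  have ht := tails hτ hprof
  refine ⟨τ, W, fun k => m (k - 1), hτ, hprof, ?_, ?_, ht.2.1, ht.2.2⟩
  · rw [← tendsto_add_atTop_iff_nat 1]
    simpa using hlim
  · intro ε hε
    obtain ⟨K, hK⟩ := uniP (fun k s => F (k + 1) (m k + s)) W
      (fun k a b hab => hB.mono (k + 1) (by linarith))
      (fun k s => ⟨hB.nonneg (k + 1) _, hB.le_one (k + 1) _⟩) hmW.cont hmW.mono hmW.bot hmW.top
      hmW.lim ε hε
    refine ⟨K + 1, fun k hk t ht => ?_⟩
    obtain ⟨j, rfl⟩ : ∃ j, k = j + 1 := ⟨k - 1, by omega⟩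
    have h1 := hK j (by omega) (t - m j)
    simp only [add_sub_cancel] at h1
    have h2 : F (j + 1) t = phi (j + 1) t := by
      simp only [F, if_neg (not_lt.2 ht)]
    rw [h2] at h1
    simpa using h1

end Pool.Agent.Results.MP_220de9_an.TravellingWaveAndTails
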